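import Pool.Agent.Ruzsa.Main
import Pool.Agent.RZ30.Transfer

/-!
# Ruzsa numbers and their adjacent differences for large moduli
-/

namespace Pool.Agent.Results.MP_ebaebe_nt.NeighbourBound

/-- the number of ordered pairs of elements of `A` with sum `n` -/
def sigma (m : ℕ) (A : Finset (ZMod m)) (n : ZMod m) : ℕ :=
  ((A ×ˢ A).filter fun q => q.1 + q.2 = n).card

/-- the Ruzsa number: the least `r` for which some `A` satisfies `1 ≤ sigma A n ≤ r` for all `n` -/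
noncomputable def ruzsa (m : ℕ) : ℕ :=
  sInf {r : ℕ | ∃ A : Finset (ZMod m), ∀ n : ZMod m, 1 ≤ sigma m A n ∧ sigma m A n ≤ r}

theorem ruzsa_le {m r : ℕ} (h : Pool.Agent.RZ30.Ok m r) : ruzsa m ≤ r := Nat.sInf_le h

theorem ok_ruzsa {m r : ℕ} (h : Pool.Agent.RZ30.Ok m r) : Pool.Agent.RZ30.Ok m (ruzsa m) :=
  Nat.sInf_mem (s := {r : ℕ | ∃ A : Finset (ZMod m), ∀ n : ZMod m,
    1 ≤ sigma m A n ∧ sigma m A n ≤ r}) ⟨r, h⟩

/-- For all large `m` the Ruzsa number satisfies `R_m ≤ 80`, and adjacent Ruzsa numbers differ by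
at most `60`. -/
theorem result : ∃ M : ℕ, ∀ m : ℕ, M ≤ m →
    ruzsa m ≤ 80 ∧ |(ruzsa (m + 1) : ℤ) - ruzsa m| ≤ 60 := by
  obtain ⟨M, hM⟩ := Pool.Agent.Ruzsa.exists_set_80
  refine ⟨max M 9, fun m hm => ?_⟩
  have hm1 : M ≤ m := (le_max_left _ _).trans hm
  have hm2 : 9 ≤ m := (le_max_right _ _).trans hm
  have h0 : Pool.Agent.RZ30.Ok m 80 := hM m hm1
  have h1 : Pool.Agent.RZ30.Ok (m + 1) 80 := hM (m + 1) (by omega)
  have a0 := ruzsa_le h0
  have a1 := ruzsa_le h1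
  have b1 := ruzsa_le (Pool.Agent.RZ30.ok_up (by omega) (ok_ruzsa h0))
  have h2 := Pool.Agent.RZ30.ok_down (by omega) (ok_ruzsa h1)
  rw [Nat.add_sub_cancel] at h2
  have b0 := ruzsa_le h2
  refine ⟨a0, ?_⟩
  rw [abs_le]
  omega

end Pool.Agent.Results.MP_ebaebe_nt.NeighbourBound
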