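import Pool.Agent.RZW.Witt

/-!
# Rigidity of the sets with at most seven representations

For a finite set `A` of an abelian group, `sig A n` and `del A n` are the numbers of
representations of `n` as an ordered sum and as a difference of two elements of `A`. If
`1 ≤ sig A n ≤ 7` everywhere, then `A` is an almost perfect difference set whose sums have `2` or `6`
representations, and this does happen in the groups `(ZMod 4) ^ j` (`RZW.exists_six`).
-/

set_option autoImplicit false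

namespace Pool.Agent.Results.MP_ebaebe_nt.RigidityBelowEight

open Finset

/-- Number of `(a, b)` in `A × A` with `a + b = n`. -/
def sig {G : Type} [AddCommGroup G] [DecidableEq G] (A : Finset G) (n : G) : ℕ :=
  ((A ×ˢ A).filter fun q => q.1 + q.2 = n).card

/-- Number of `(a, b)` in `A × A` with `a - b = n`. -/
def del {G : Type} [AddCommGroup G] [DecidableEq G] (A : Finset G) (n : G) : ℕ :=
  ((A ×ˢ A).filter fun q => q.1 - q.2 = n).card

/-- The Ruzsa number: the least `r` such that some `A` in `ZMod m` has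
`1 ≤ sig A n ≤ r` for all `n`. -/
noncomputable def ruzsa (m : ℕ) : ℕ :=
  sInf {r : ℕ | ∃ A : Finset (ZMod m), ∀ n : ZMod m, 1 ≤ sig A n ∧ sig A n ≤ r}

theorem sum_fiber {G α : Type} [Fintype G] [DecidableEq G] (S : Finset α) (f : α → G) :
    ∑ n : G, (S.filter fun x => f x = n).card = S.card :=
  (Finset.card_eq_sum_card_fiberwise (f := f) (s := S) (t := Finset.univ)
    (fun _ _ => Finset.mem_coe.2 (Finset.mem_univ _))).symm

theorem sum_fiber_sq {G α : Type} [Fintype G] [DecidableEq G] (S : Finset α) (f : α → G) :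
    ∑ n : G, (S.filter fun x => f x = n).card ^ 2 =
      ((S ×ˢ S).filter fun z => f z.1 = f z.2).card := by
  rw [← sum_fiber ((S ×ˢ S).filter fun z => f z.1 = f z.2) (fun z => f z.1)]
  refine Finset.sum_congr rfl fun n _ => ?_
  rw [sq, ← Finset.card_product]
  congr 1
  ext ⟨x, y⟩
  simp only [mem_product, mem_filter]
  constructor
  · rintro ⟨⟨h1, h2⟩, h3, h4⟩
    exact ⟨⟨⟨h1, h3⟩, by rw [h2, h4]⟩, h2⟩
  · rintro ⟨⟨⟨h1, h3⟩, h5⟩, h2⟩
    exact ⟨⟨h1, h2⟩, h3, by rw [← h5, h2]⟩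

section
variable {G : Type} [AddCommGroup G] [Fintype G] [DecidableEq G]

theorem sum_sig (A : Finset G) : ∑ n : G, sig A n = A.card ^ 2 := by
  unfold sig
  rw [sum_fiber (A ×ˢ A) (fun q => q.1 + q.2), card_product, sq]

theorem sum_del (A : Finset G) : ∑ n : G, del A n = A.card ^ 2 := by
  unfold del
  rw [sum_fiber (A ×ˢ A) (fun q => q.1 - q.2), card_product, sq]

omit [Fintype G] in
theorem del_zero (A : Finset G) : del A 0 = A.card := by
  unfold del
  refine (Finset.card_bij (fun a _ => (a, a)) ?_ ?_ ?_).symm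
  · intro a ha
    simp [ha]
  · intro a _ b _ h
    exact (Prod.mk.inj h).1
  · rintro ⟨a, b⟩ h
    simp only [mem_filter, mem_product] at h
    refine ⟨a, h.1.1, ?_⟩
    rw [sub_eq_zero.1 h.2]

/-- The additive energy, in two ways. -/
theorem energy (A : Finset G) : ∑ n : G, sig A n ^ 2 = ∑ n : G, del A n ^ 2 := by
  unfold sig del
  rw [sum_fiber_sq (A ×ˢ A) (fun q => q.1 + q.2), sum_fiber_sq (A ×ˢ A) (fun q => q.1 - q.2)]
  refine Finset.card_bij (fun z _ => ((z.1.1, z.2.2), (z.2.1, z.1.2))) ?_ ?_ ?_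
  · rintro ⟨⟨a, b⟩, ⟨c, d⟩⟩ h
    simp only [mem_filter, mem_product] at h ⊢
    refine ⟨⟨⟨h.1.1.1, h.1.2.2⟩, h.1.2.1, h.1.1.2⟩, ?_⟩
    rw [sub_eq_sub_iff_add_eq_add]
    exact h.2
  · rintro ⟨⟨a, b⟩, ⟨c, d⟩⟩ _ ⟨⟨a', b'⟩, ⟨c', d'⟩⟩ _ h
    simp only [Prod.mk.injEq] at h ⊢
    exact ⟨⟨h.1.1, h.2.2⟩, h.2.1, h.1.2⟩
  · rintro ⟨⟨a, d⟩, ⟨c, b⟩⟩ h
    simp only [mem_filter, mem_product] at h
    refine ⟨((a, b), (c, d)), ?_, rfl⟩
    simp only [mem_filter, mem_product]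
    refine ⟨⟨⟨h.1.1.1, h.1.2.2⟩, h.1.2.1, h.1.1.2⟩, ?_⟩
    rw [← sub_eq_sub_iff_add_eq_add]
    exact h.2

/-- The identity. -/
theorem identity (A : Finset G) (s : ℤ) :
    ∑ n ∈ Finset.univ.erase (0 : G), ((del A n : ℤ) - s ^ 2) * ((del A n : ℤ) - (s ^ 2 - 1)) +
      ∑ n : G, ((s ^ 2 + s) - (sig A n : ℤ)) * ((sig A n : ℤ) - (s ^ 2 - s)) =
      (2 * s ^ 2 - 1) * (A.card : ℤ) - s ^ 2 * (s ^ 2 - 1) := by
  have e1 : ∑ n : G, ((del A n : ℤ) - s ^ 2) * ((del A n : ℤ) - (s ^ 2 - 1)) =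
      ∑ n : G, (del A n : ℤ) ^ 2 - (2 * s ^ 2 - 1) * ∑ n : G, (del A n : ℤ) +
        (Fintype.card G : ℤ) * (s ^ 2 * (s ^ 2 - 1)) := by
    rw [Finset.mul_sum, ← Finset.sum_sub_distrib]
    rw [show (Fintype.card G : ℤ) * (s ^ 2 * (s ^ 2 - 1)) = ∑ _n : G, (s ^ 2 * (s ^ 2 - 1)) by
      rw [Finset.sum_const, Finset.card_univ, nsmul_eq_mul]]
    rw [← Finset.sum_add_distrib]
    exact Finset.sum_congr rfl fun n _ => by ring
  have e2 : ∑ n : G, ((s ^ 2 + s) - (sig A n : ℤ)) * ((sig A n : ℤ) - (s ^ 2 - s)) =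
      2 * s ^ 2 * ∑ n : G, (sig A n : ℤ) - ∑ n : G, (sig A n : ℤ) ^ 2 -
        (Fintype.card G : ℤ) * (s ^ 2 * (s ^ 2 - 1)) := by
    rw [Finset.mul_sum, ← Finset.sum_sub_distrib]
    rw [show (Fintype.card G : ℤ) * (s ^ 2 * (s ^ 2 - 1)) = ∑ _n : G, (s ^ 2 * (s ^ 2 - 1)) by
      rw [Finset.sum_const, Finset.card_univ, nsmul_eq_mul]]
    rw [← Finset.sum_sub_distrib]
    exact Finset.sum_congr rfl fun n _ => by ring
  have e3 := Finset.add_sum_erase Finset.univ
    (fun n : G => ((del A n : ℤ) - s ^ 2) * ((del A n : ℤ) - (s ^ 2 - 1))) (Finset.mem_univ 0)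
  have e4 : ∑ n : G, (sig A n : ℤ) = (A.card : ℤ) ^ 2 := by exact_mod_cast sum_sig A
  have e5 : ∑ n : G, (del A n : ℤ) = (A.card : ℤ) ^ 2 := by exact_mod_cast sum_del A
  have e6 : ∑ n : G, (sig A n : ℤ) ^ 2 = ∑ n : G, (del A n : ℤ) ^ 2 := by
    exact_mod_cast energy A
  have e7 : (del A 0 : ℤ) = A.card := by exact_mod_cast del_zero A
  rw [e7, e1, e5] at e3
  rw [e2, e4, e6]
  linear_combination e3

omit [Fintype G] in
/-- An odd number of representations: `n` is the double of an element of `A`. -/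
theorem exists_of_odd (A : Finset G) (n : G) (h : sig A n % 2 = 1) : ∃ a ∈ A, a + a = n := by
  by_contra hcon
  push Not at hcon
  have h0 : ∑ _q ∈ (A ×ˢ A).filter (fun q : G × G => q.1 + q.2 = n), (1 : ZMod 2) = 0 := by
    refine Finset.sum_involution (fun q _ => (q.2, q.1)) ?_ ?_ ?_ ?_
    · intro q _
      decide
    · rintro ⟨a, b⟩ hq _ heq
      simp only [mem_filter, mem_product] at hq
      have hab : b = a := (Prod.mk.inj heq).1
      exact hcon a hq.1.1 (by rw [← hq.2, hab])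
    · rintro ⟨a, b⟩ hq
      simp only [mem_filter, mem_product] at hq ⊢
      exact ⟨⟨hq.1.2, hq.1.1⟩, by rw [add_comm]; exact hq.2⟩
    · rintro ⟨a, b⟩ _
      rfl
  have h1 : ((sig A n : ℕ) : ZMod 2) = 0 := by
    rw [← h0, Finset.sum_const, nsmul_eq_mul, mul_one]
    rfl
  have h2 := (ZMod.natCast_eq_zero_iff (sig A n) 2).1 h1
  omega

theorem card_odd (A : Finset G) :
    (Finset.univ.filter fun n : G => sig A n % 2 = 1).card ≤ A.card := by
  refine le_trans (Finset.card_le_card (t := A.image fun a => a + a) ?_) Finset.card_image_le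
  intro n hn
  obtain ⟨a, ha, h⟩ := exists_of_odd A n (Finset.mem_filter.1 hn).2
  exact Finset.mem_image.2 ⟨a, ha, h⟩

theorem pt (x : ℕ) (h1 : 1 ≤ x) (h2 : x ≤ 7) :
    4 * (if x = 4 then (1 : ℤ) else 0) - 5 * (if x % 2 = 1 then (1 : ℤ) else 0) ≤
      ((2 ^ 2 + 2) - (x : ℤ)) * ((x : ℤ) - (2 ^ 2 - 2)) := by
  interval_cases x <;> norm_num

theorem pd (x : ℕ) :
    2 * (if x ≠ 3 ∧ x ≠ 4 then (1 : ℤ) else 0) ≤ ((x : ℤ) - 2 ^ 2) * ((x : ℤ) - (2 ^ 2 - 1)) := by
  split_ifs with h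
  · rcases Nat.lt_or_ge x 3 with h3 | h3
    · have h4 : (x : ℤ) ≤ 2 := by exact_mod_cast Nat.lt_succ_iff.1 h3
      nlinarith
    · have h5 : 5 ≤ x := by omega
      have h6 : (5 : ℤ) ≤ x := by exact_mod_cast h5
      nlinarith
  · have h7 : x = 3 ∨ x = 4 := by omega
    rcases h7 with h7 | h7 <;> subst h7 <;> norm_num

/-- The two sums for a set with at most seven representations. -/
theorem defect (A : Finset G) (h : ∀ n : G, 1 ≤ sig A n ∧ sig A n ≤ 7) :
    ∑ n ∈ Finset.univ.erase (0 : G), ((del A n : ℤ) - 2 ^ 2) * ((del A n : ℤ) - (2 ^ 2 - 1)) +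
      4 * ((Finset.univ.filter fun n : G => sig A n = 4).card : ℤ) + 12 ≤ 12 * (A.card : ℤ) := by
  have h1 := identity A 2
  have h2 : ∑ n : G, (4 * (if sig A n = 4 then (1 : ℤ) else 0) -
      5 * (if sig A n % 2 = 1 then (1 : ℤ) else 0)) ≤
      ∑ n : G, ((2 ^ 2 + 2) - (sig A n : ℤ)) * ((sig A n : ℤ) - (2 ^ 2 - 2)) :=
    Finset.sum_le_sum fun n _ => pt (sig A n) (h n).1 (h n).2
  rw [Finset.sum_sub_distrib, ← Finset.mul_sum, ← Finset.mul_sum, Finset.sum_boole,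
    Finset.sum_boole] at h2
  have h3 : ((Finset.univ.filter fun n : G => sig A n % 2 = 1).card : ℤ) ≤ A.card := by
    exact_mod_cast card_odd A
  linarith

theorem rigid (A : Finset G) (h : ∀ n : G, 1 ≤ sig A n ∧ sig A n ≤ 7) :
    3 * Fintype.card G + 3 ≤ A.card ^ 2 + 5 * A.card ∧
    A.card ^ 2 + 10 ≤ 4 * Fintype.card G + 7 * A.card ∧
    (Finset.univ.filter fun n : G => sig A n ≠ 2 ∧ sig A n ≠ 6).card + 3 ≤ 4 * A.card ∧
    (Finset.univ.filter fun n : G => n ≠ 0 ∧ del A n ≠ 3 ∧ del A n ≠ 4).card + 6 ≤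
      6 * A.card := by
  have hS := defect A h
  have hN4 : (0 : ℤ) ≤ ((Finset.univ.filter fun n : G => sig A n = 4).card : ℤ) :=
    Int.natCast_nonneg _
  have e0 : ((Finset.univ.erase (0 : G)).card : ℤ) = Fintype.card G - 1 := by
    rw [Finset.card_erase_of_mem (Finset.mem_univ _), Finset.card_univ]
    have : 0 < Fintype.card G := Fintype.card_pos
    omega
  have e5 : ∑ n : G, (del A n : ℤ) = (A.card : ℤ) ^ 2 := by exact_mod_cast sum_del A
  have e3 := Finset.add_sum_erase Finset.univ (fun n : G => (del A n : ℤ)) (Finset.mem_univ 0)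
  have e7 : (del A 0 : ℤ) = A.card := by exact_mod_cast del_zero A
  rw [e7, e5] at e3
  have hbad : ∑ n ∈ Finset.univ.erase (0 : G), 2 * (if del A n ≠ 3 ∧ del A n ≠ 4 then (1 : ℤ)
      else 0) ≤ ∑ n ∈ Finset.univ.erase (0 : G), ((del A n : ℤ) - 2 ^ 2) *
        ((del A n : ℤ) - (2 ^ 2 - 1)) := Finset.sum_le_sum fun n _ => pd (del A n)
  have hS0 : (0 : ℤ) ≤ ∑ n ∈ Finset.univ.erase (0 : G), ((del A n : ℤ) - 2 ^ 2) *
        ((del A n : ℤ) - (2 ^ 2 - 1)) := by
    refine le_trans ?_ hbad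
    refine Finset.sum_nonneg fun n _ => ?_
    split_ifs <;> norm_num
  have hlow : ∑ n ∈ Finset.univ.erase (0 : G), (6 - ((del A n : ℤ) - 2 ^ 2) *
        ((del A n : ℤ) - (2 ^ 2 - 1))) ≤ ∑ n ∈ Finset.univ.erase (0 : G), 2 * (del A n : ℤ) := by
    refine Finset.sum_le_sum fun n _ => ?_
    rcases le_or_gt ((del A n : ℤ)) 2 with h1 | h1
    · nlinarith
    · have h2 : (3 : ℤ) ≤ del A n := h1
      nlinarith
  have hup : ∑ n ∈ Finset.univ.erase (0 : G), 2 * (del A n : ℤ) ≤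
      ∑ n ∈ Finset.univ.erase (0 : G), (8 + ((del A n : ℤ) - 2 ^ 2) *
        ((del A n : ℤ) - (2 ^ 2 - 1))) := by
    refine Finset.sum_le_sum fun n _ => ?_
    rcases le_or_gt ((del A n : ℤ)) 4 with h1 | h1
    · nlinarith
    · have h2 : (5 : ℤ) ≤ del A n := h1
      nlinarith
  rw [Finset.sum_sub_distrib, Finset.sum_const, nsmul_eq_mul, e0, ← Finset.mul_sum] at hlow
  rw [Finset.sum_add_distrib, Finset.sum_const, nsmul_eq_mul, e0, ← Finset.mul_sum] at hup
  rw [← Finset.mul_sum, Finset.sum_boole] at hbad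
  refine ⟨?_, ?_, ?_, ?_⟩
  · have h1 : (3 * Fintype.card G + 3 : ℤ) ≤ (A.card : ℤ) ^ 2 + 5 * A.card := by linarith
    exact_mod_cast h1
  · have h1 : ((A.card : ℤ) ^ 2 + 10) ≤ 4 * Fintype.card G + 7 * A.card := by linarith
    exact_mod_cast h1
  · have h1 : (Finset.univ.filter fun n : G => sig A n ≠ 2 ∧ sig A n ≠ 6).card ≤
        (Finset.univ.filter fun n : G => sig A n = 4).card +
        (Finset.univ.filter fun n : G => sig A n % 2 = 1).card := by
      refine le_trans (Finset.card_le_card ?_) (Finset.card_union_le _ _)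
      intro n hn
      have h2 := (Finset.mem_filter.1 hn).2
      have h3 := h n
      rw [Finset.mem_union, Finset.mem_filter, Finset.mem_filter]
      have h4 : sig A n = 4 ∨ sig A n % 2 = 1 := by omega
      rcases h4 with h4 | h4
      · exact Or.inl ⟨Finset.mem_univ _, h4⟩
      · exact Or.inr ⟨Finset.mem_univ _, h4⟩
    have h2 := card_odd A
    have h3 : 4 * ((Finset.univ.filter fun n : G => sig A n = 4).card : ℤ) + 12 ≤
        12 * (A.card : ℤ) := by linarith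
    omega
  · have h1 : (Finset.univ.filter fun n : G => n ≠ 0 ∧ del A n ≠ 3 ∧ del A n ≠ 4) =
        (Finset.univ.erase (0 : G)).filter fun n => del A n ≠ 3 ∧ del A n ≠ 4 := by
      ext n
      simp only [mem_filter, mem_univ, true_and, mem_erase, ne_eq, and_true]
    rw [h1]
    have h2 : 2 * (((Finset.univ.erase (0 : G)).filter
        fun n => del A n ≠ 3 ∧ del A n ≠ 4).card : ℤ) + 12 ≤ 12 * (A.card : ℤ) := by linarith
    omega

/-- Between a quarter and a half of the elements have six representations. -/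
theorem six (A : Finset G) (h : ∀ n : G, 1 ≤ sig A n ∧ sig A n ≤ 7) :
    Fintype.card G + 9 ≤ 4 * (Finset.univ.filter fun n : G => sig A n = 6).card + 16 * A.card ∧
    4 * (Finset.univ.filter fun n : G => sig A n = 6).card + 10 ≤
      2 * Fintype.card G + 8 * A.card := by
  obtain ⟨h1, h2, -, -⟩ := rigid A h
  have hS := defect A h
  have hS0 : (0 : ℤ) ≤ ∑ n ∈ Finset.univ.erase (0 : G), ((del A n : ℤ) - 2 ^ 2) *
        ((del A n : ℤ) - (2 ^ 2 - 1)) := by
    refine Finset.sum_nonneg fun n _ => ?_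
    refine le_trans ?_ (pd (del A n))
    split_ifs <;> norm_num
  have hodd : ((Finset.univ.filter fun n : G => sig A n % 2 = 1).card : ℤ) ≤ A.card := by
    exact_mod_cast card_odd A
  have e4 : ∑ n : G, (sig A n : ℤ) = (A.card : ℤ) ^ 2 := by exact_mod_cast sum_sig A
  have hl : ∑ n : G, (4 * (if sig A n = 6 then (1 : ℤ) else 0) + 2 -
      (if sig A n % 2 = 1 then (1 : ℤ) else 0)) ≤ ∑ n : G, (sig A n : ℤ) := by
    refine Finset.sum_le_sum fun n _ => ?_
    have h3 := h n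
    split_ifs <;> omega
  have hu : ∑ n : G, (sig A n : ℤ) ≤ ∑ n : G, (4 * (if sig A n = 6 then (1 : ℤ) else 0) + 2 +
      5 * (if sig A n % 2 = 1 then (1 : ℤ) else 0) +
      2 * (if sig A n = 4 then (1 : ℤ) else 0)) := by
    refine Finset.sum_le_sum fun n _ => ?_
    have h3 := h n
    split_ifs <;> omega
  rw [Finset.sum_sub_distrib, Finset.sum_add_distrib, ← Finset.mul_sum, Finset.sum_boole,
    Finset.sum_boole, Finset.sum_const, Finset.card_univ, nsmul_eq_mul, e4] at hl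
  rw [Finset.sum_add_distrib, Finset.sum_add_distrib, Finset.sum_add_distrib, ← Finset.mul_sum,
    ← Finset.mul_sum, ← Finset.mul_sum, Finset.sum_boole, Finset.sum_boole, Finset.sum_boole,
    Finset.sum_const, Finset.card_univ, nsmul_eq_mul, e4] at hu
  have h1z : (3 * Fintype.card G + 3 : ℤ) ≤ (A.card : ℤ) ^ 2 + 5 * A.card := by exact_mod_cast h1
  have h2z : ((A.card : ℤ) ^ 2 + 10) ≤ 4 * Fintype.card G + 7 * A.card := by exact_mod_cast h2
  constructor
  · have h5 : (Fintype.card G + 9 : ℤ) ≤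
        4 * ((Finset.univ.filter fun n : G => sig A n = 6).card : ℤ) + 16 * A.card := by linarith
    exact_mod_cast h5
  · have h5 : 4 * ((Finset.univ.filter fun n : G => sig A n = 6).card : ℤ) + 10 ≤
        2 * Fintype.card G + 8 * A.card := by linarith
    exact_mod_cast h5

/-- At most five representations are impossible in large groups. -/
theorem five (A : Finset G) (h : ∀ n : G, 1 ≤ sig A n ∧ sig A n ≤ 5) : Fintype.card G ≤ 1111 := by
  have h7 : ∀ n : G, 1 ≤ sig A n ∧ sig A n ≤ 7 := fun n => ⟨(h n).1, (h n).2.trans (by norm_num)⟩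
  obtain ⟨-, h2, -, -⟩ := rigid A h7
  obtain ⟨h5, -⟩ := six A h7
  have h6 : (Finset.univ.filter fun n : G => sig A n = 6).card = 0 := by
    rw [Finset.card_eq_zero, Finset.filter_eq_empty_iff]
    intro n _ hn
    have := (h n).2
    omega
  rw [h6] at h5
  have hk : A.card ≤ 70 := by
    by_contra hcon
    push Not at hcon
    have h8 : A.card ^ 2 + 46 ≤ 71 * A.card := by omega
    nlinarith
  omega

end

/-- Rigidity: sets with at most seven representations are almost perfect difference sets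
(`del` is `3` or `4`), whose sums have `2` or `6` representations. -/
theorem result :
    (∀ (G : Type) [AddCommGroup G] [Fintype G] [DecidableEq G] (A : Finset G) (s : ℤ),
      ∑ n ∈ Finset.univ.erase (0 : G), ((del A n : ℤ) - s ^ 2) * ((del A n : ℤ) - (s ^ 2 - 1)) +
        ∑ n : G, ((s ^ 2 + s) - (sig A n : ℤ)) * ((sig A n : ℤ) - (s ^ 2 - s)) =
        (2 * s ^ 2 - 1) * (A.card : ℤ) - s ^ 2 * (s ^ 2 - 1)) ∧
    (∀ (G : Type) [AddCommGroup G] [Fintype G] [DecidableEq G] (A : Finset G),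
      (∀ n : G, 1 ≤ sig A n ∧ sig A n ≤ 7) →
      3 * Fintype.card G + 3 ≤ A.card ^ 2 + 5 * A.card ∧
      A.card ^ 2 + 10 ≤ 4 * Fintype.card G + 7 * A.card ∧
      (Finset.univ.filter fun n : G => sig A n ≠ 2 ∧ sig A n ≠ 6).card + 3 ≤ 4 * A.card ∧
      (Finset.univ.filter fun n : G => n ≠ 0 ∧ del A n ≠ 3 ∧ del A n ≠ 4).card + 6 ≤
        6 * A.card ∧
      Fintype.card G + 9 ≤
        4 * (Finset.univ.filter fun n : G => sig A n = 6).card + 16 * A.card ∧
      4 * (Finset.univ.filter fun n : G => sig A n = 6).card + 10 ≤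
        2 * Fintype.card G + 8 * A.card) ∧
    (∀ (G : Type) [AddCommGroup G] [Fintype G] [DecidableEq G] (A : Finset G),
      (∀ n : G, 1 ≤ sig A n ∧ sig A n ≤ 5) → Fintype.card G ≤ 1111) ∧
    (∀ j : ℕ, 2 ≤ j → ∃ (G : Type) (_ : AddCommGroup G) (_ : Fintype G) (_ : DecidableEq G)
      (A : Finset G), Fintype.card G = 4 ^ j ∧ (∀ g : G, g + g + (g + g) = 0) ∧
      (∀ g : G, g + g = 0 → ∃ h : G, h + h = g) ∧ ∀ n : G, 1 ≤ sig A n ∧ sig A n ≤ 6) ∧
    (∀ m : ℕ, 0 < m → ruzsa m ≤ 7 → ∃ A : Finset (ZMod m), (∀ n, 1 ≤ sig A n ∧ sig A n ≤ 7) ∧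
      3 * m + 3 ≤ A.card ^ 2 + 5 * A.card ∧ A.card ^ 2 + 10 ≤ 4 * m + 7 * A.card ∧
      {n | sig A n ≠ 2 ∧ sig A n ≠ 6}.ncard + 3 ≤ 4 * A.card ∧
      {n | n ≠ 0 ∧ del A n ≠ 3 ∧ del A n ≠ 4}.ncard + 6 ≤ 6 * A.card) := by
  refine ⟨fun G _ _ _ A s => identity A s, fun G _ _ _ A h => ?_, fun G _ _ _ A h => five A h,
    Pool.Agent.RZW.exists_six, fun m hm h => ?_⟩
  · obtain ⟨h1, h2, h3, h4⟩ := rigid A h
    obtain ⟨h5, h6⟩ := six A h
    exact ⟨h1, h2, h3, h4, h5, h6⟩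
  · have : NeZero m := ⟨hm.ne'⟩
    have hne : {r : ℕ | ∃ A : Finset (ZMod m), ∀ n : ZMod m, 1 ≤ sig A n ∧ sig A n ≤ r}.Nonempty := by
      refine ⟨((Finset.univ : Finset (ZMod m)) ×ˢ (Finset.univ : Finset (ZMod m))).card,
        Finset.univ, fun n => ⟨?_, Finset.card_filter_le _ _⟩⟩
      refine Finset.card_pos.2 ⟨(n, 0), ?_⟩
      rw [Finset.mem_filter]
      exact ⟨Finset.mem_product.2 ⟨Finset.mem_univ _, Finset.mem_univ _⟩, add_zero n⟩
    obtain ⟨A, hA⟩ := Nat.sInf_mem hne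
    have hA7 : ∀ n, 1 ≤ sig A n ∧ sig A n ≤ 7 := fun n => ⟨(hA n).1, (hA n).2.trans h⟩
    obtain ⟨h1, h2, h3, h4⟩ := rigid A hA7
    rw [ZMod.card] at h1 h2
    refine ⟨A, hA7, h1, h2, ?_, ?_⟩
    · rw [show {n : ZMod m | sig A n ≠ 2 ∧ sig A n ≠ 6} =
        ↑(Finset.univ.filter fun n : ZMod m => sig A n ≠ 2 ∧ sig A n ≠ 6) by ext n; simp,
        Set.ncard_coe_finset]
      exact h3
    · rw [show {n : ZMod m | n ≠ 0 ∧ del A n ≠ 3 ∧ del A n ≠ 4} =
        ↑(Finset.univ.filter fun n : ZMod m => n ≠ 0 ∧ del A n ≠ 3 ∧ del A n ≠ 4) by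
          ext n; simp, Set.ncard_coe_finset]
      exact h4

end Pool.Agent.Results.MP_ebaebe_nt.RigidityBelowEight
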